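import Pool.Agent.helper84.QI.Spec

/-!
Row qi:DIC of MP_fd6eef_al: the centralizer is finite.
-/

set_option autoImplicit false

namespace Pool.Agent.QI

theorem DIC : DIC_stmt := by
  intro G _ a b hab x hx hh
  obtain ⟨h, hinf⟩ := hh
  have hBad : (Bad a b).Finite := hab.fin
  have hsub : (fun c => h * c) '' (Subgroup.centralizer ({x} : Set G) : Set G) ⊆ Bad a b := by
    rintro _ ⟨c, hc, rfl⟩
    have hc' : x * c = c * x := by
      have := (Subgroup.mem_centralizer_singleton_iff).mp hc
      exact this.symm
    show ((Subgroup.closure ({a, (h * c)⁻¹ * b * (h * c)} : Set G) : Set G)).Infinite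
    have hle : (Subgroup.closure ({x, h⁻¹ * b * h} : Set G)).map (MulAut.conj c⁻¹).toMonoidHom ≤
        Subgroup.closure ({a, (h * c)⁻¹ * b * (h * c)} : Set G) := by
      rw [MonoidHom.map_closure, Subgroup.closure_le]
      rintro _ ⟨y, hy, rfl⟩
      rcases hy with rfl | hy
      · have : (MulAut.conj c⁻¹).toMonoidHom y = y := by
          simp only [MulEquiv.toMonoidHom_eq_coe, MonoidHom.coe_coe, MulAut.conj_apply, inv_inv]
          rw [mul_assoc, hc', ← mul_assoc, inv_mul_cancel, one_mul]
        rw [this]
        have h1 : Subgroup.zpowers a ≤ Subgroup.closure ({a, (h * c)⁻¹ * b * (h * c)} : Set G) := by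
          rw [Subgroup.zpowers_le]
          exact Subgroup.subset_closure (Set.mem_insert _ _)
        exact h1 hx
      · rw [Set.mem_singleton_iff] at hy
        subst hy
        have : (MulAut.conj c⁻¹).toMonoidHom (h⁻¹ * b * h) = (h * c)⁻¹ * b * (h * c) := by
          simp only [MulEquiv.toMonoidHom_eq_coe, MonoidHom.coe_coe, MulAut.conj_apply, inv_inv, mul_inv_rev]
          group
        rw [this]
        exact Subgroup.subset_closure (Set.mem_insert_of_mem _ rfl)
    have hinf2 : ((Subgroup.closure ({x, h⁻¹ * b * h} : Set G)).map (MulAut.conj c⁻¹).toMonoidHom : Set G).Infinite := by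
      rw [Subgroup.coe_map]
      exact hinf.image ((MulAut.conj c⁻¹).injective.injOn)
    exact hinf2.mono hle
  have hfin := hBad.subset hsub
  exact Set.Finite.of_finite_image hfin (mul_right_injective h).injOn

end Pool.Agent.QI
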